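import Pool.Agent.helper55.FLD.Spec

/-! FLD (MP_2e0e07_nt), row RT: `p`-power roots in a compact group. -/

set_option autoImplicit false

namespace Pool.Agent.FLD

open Topology Filter

section RTalg

variable {p : ℕ} [Fact p.Prime] {B : Type} [Ring B] [Algebra ℚ_[p] B] {R : Subring B}

/-- `w ≡ 1 + p ^ j f` modulo `p ^ (j + 1)` and `f` integral give `w ≡ 1` modulo `p ^ j` -/
private theorem RT_low {j : ℕ} {w f : B} (hf : f ∈ R)
    (h : Dv p R (j + 1) (w - 1 - ((p : ℚ_[p]) ^ j) • f)) : Dv p R j (w - 1) := by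
  have h1 : Dv p R j (((p : ℚ_[p]) ^ j) • f) := ⟨f, hf, rfl⟩
  have h2 := (h.mono (Nat.le_succ j)).add h1
  rwa [sub_add_cancel] at h2

/-- the `p`-th power of an element near `y` -/
private theorem RT_pow (hTA : TA_stmt) {k : ℕ} {x y : B} (hx : Dv p R 2 (x - 1))
    (hy : Dv p R 2 (y - 1)) (hxy : Dv p R k (x - y)) :
    Dv p R (k + 2) (x ^ p - y ^ p - (p : ℚ_[p]) • (x - y)) := by
  have h := (hTA p B R).1 2 k x y hx hy hxy p
  rwa [← Nat.cast_smul_eq_nsmul ℚ_[p]] at h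

private theorem RT_pow1 (hTA : TA_stmt) {j : ℕ} {w f : B} (hf : f ∈ R) (hw : Dv p R 2 (w - 1))
    (h : Dv p R (j + 1) (w - 1 - ((p : ℚ_[p]) ^ j) • f)) :
    Dv p R (j + 2) (w ^ p - 1 - ((p : ℚ_[p]) ^ (j + 1)) • f) := by
  have h0 := RT_low hf h
  have h1 : Dv p R 2 ((1 : B) - 1) := by rw [sub_self]; exact Dv.zero 2
  have h2 := RT_pow hTA hw h1 h0
  have h3 := h.smul 1
  rw [pow_one, smul_sub, smul_smul, ← pow_succ'] at h3
  have h4 := h2.add h3
  have h5 : w ^ p - 1 ^ p - (p : ℚ_[p]) • (w - 1) + ((p : ℚ_[p]) • (w - 1) -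
      ((p : ℚ_[p]) ^ (j + 1)) • f) = w ^ p - 1 - ((p : ℚ_[p]) ^ (j + 1)) • f := by
    rw [one_pow]; abel
  rwa [h5] at h4

end RTalg

theorem RT (h1 : TA_stmt) : RT_stmt := by
  intro p _ B _ _ _ _ _ _ R hL G _ _ _ _ Φ hΦ hΦ2
  have hTA : TA_stmt := h1
  have hmem : ∀ g, Φ g ∈ R := fun g => mem_of_dv_sub_one (hΦ2 g)
  -- representatives modulo p
  obtain ⟨F, hFR, hF⟩ := hL.compact.elim_nhds_subcover (fun r => {x : B | Dv p R 1 (x - r)}) (by
    intro r _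
    have ho : IsOpen {x : B | Dv p R 1 (x - r)} :=
      (hL.isOpen_dv 1).preimage (continuous_id.sub continuous_const)
    refine ho.mem_nhds ?_
    change Dv p R 1 (r - r)
    rw [sub_self]
    exact Dv.zero 1)
  have hrep : ∀ w ∈ R, ∃ f : F, Dv p R 1 (w - f) := by
    intro w hw
    have h2 := hF hw
    rw [Set.mem_iUnion₂] at h2
    obtain ⟨f, hf, h3⟩ := h2
    exact ⟨⟨f, hf⟩, h3⟩
  have hfR : ∀ f : F, (f : B) ∈ R := fun f => hFR f f.2
  -- every element near 1 has a representative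
  have hrep2 : ∀ (k : ℕ) (g : G), Dv p R k (Φ g - 1) →
      ∃ f : F, Dv p R (k + 1) (Φ g - 1 - ((p : ℚ_[p]) ^ k) • (f : B)) := by
    intro k g hg
    obtain ⟨w, hw, hgw⟩ := hg
    obtain ⟨f, hf⟩ := hrep w hw
    refine ⟨f, ?_⟩
    rw [hgw, ← smul_sub, add_comm k 1]
    exact hf.smul k
  obtain ⟨S, hS⟩ : ∃ S : ℕ → Set F, S = fun j =>
    {f : F | ∃ g : G, Dv p R (j + 1) (Φ g - 1 - ((p : ℚ_[p]) ^ j) • (f : B))} := ⟨_, rfl⟩
  have hSmem : ∀ (j : ℕ) (f : F), f ∈ S j ↔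
      ∃ g : G, Dv p R (j + 1) (Φ g - 1 - ((p : ℚ_[p]) ^ j) • (f : B)) := by
    intro j f
    rw [hS]
    rfl
  have hSmono : ∀ j, S j ⊆ S (j + 1) := by
    intro j f hf
    rw [hSmem] at hf ⊢
    obtain ⟨g, hg⟩ := hf
    refine ⟨g ^ p, ?_⟩
    rw [map_pow]
    exact RT_pow1 hTA (hfR f) (hΦ2 g) hg
  obtain ⟨n₀, hn₀⟩ := WellFoundedGT.monotone_chain_condition
    (⟨S, monotone_nat_of_le_succ hSmono⟩ : ℕ →o Set F)
  have hconst : ∀ j, n₀ ≤ j → S (j + 1) = S j := by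
    intro j hj
    have h2 : S n₀ = S j := hn₀ j hj
    have h3 : S n₀ = S (j + 1) := hn₀ (j + 1) (by omega)
    rw [← h2, ← h3]
  -- approximate roots
  have hA : ∀ (j : ℕ), n₀ ≤ j → ∀ g : G, Dv p R (j + 1) (Φ g - 1) → ∀ m : ℕ,
      ∃ h : G, Dv p R j (Φ h - 1) ∧ Dv p R (j + 2 + m) ((Φ h) ^ p - Φ g) := by
    intro j hj g hg m
    induction m with
    | zero =>
      obtain ⟨f, hf⟩ := hrep2 (j + 1) g hg
      have h2 : f ∈ S (j + 1) := (hSmem _ _).2 ⟨g, hf⟩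
      rw [hconst j hj, hSmem] at h2
      obtain ⟨h, hh⟩ := h2
      refine ⟨h, RT_low (hfR f) hh, ?_⟩
      have h3 := RT_pow1 hTA (hfR f) (hΦ2 h) hh
      have h4 := h3.sub hf
      have h5 : (Φ h) ^ p - 1 - ((p : ℚ_[p]) ^ (j + 1)) • (f : B) -
          (Φ g - 1 - ((p : ℚ_[p]) ^ (j + 1)) • (f : B)) = (Φ h) ^ p - Φ g := by abel
      rw [h5] at h4
      exact h4
    | succ m ih =>
      obtain ⟨h, hhj, hh⟩ := ih
      obtain ⟨k, hk⟩ : ∃ k, k = j + 1 + m := ⟨_, rfl⟩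
      have hk1 : j + 2 + m = k + 1 := by omega
      have hk2 : j + 2 + (m + 1) = k + 2 := by omega
      rw [hk1] at hh
      rw [hk2]
      -- the error element
      have he : Dv p R (k + 1) (Φ ((h ^ p)⁻¹ * g) - 1) := by
        have h2 : Φ ((h ^ p)⁻¹ * g) - 1 = Φ ((h ^ p)⁻¹) * (Φ g - (Φ h) ^ p) := by
          rw [map_mul, mul_sub, ← map_pow Φ h p, ← map_mul Φ ((h ^ p)⁻¹) (h ^ p), inv_mul_cancel,
            map_one]
        rw [h2]
        exact Dv.mul_left (hmem _) hh.symm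
      obtain ⟨f, hf⟩ := hrep2 (k + 1) _ he
      have h2 : f ∈ S (k + 1) := (hSmem _ _).2 ⟨_, hf⟩
      rw [hconst k (by omega), hSmem] at h2
      obtain ⟨t, ht⟩ := h2
      have htk : Dv p R k (Φ t - 1) := RT_low (hfR f) ht
      refine ⟨h * t, ?_, ?_⟩
      · rw [map_mul]
        exact hhj.mul_one_sub (htk.mono (by omega))
      · -- x = Φ (h t), y = Φ h
        have hxy : Dv p R k (Φ (h * t) - Φ h) := by
          have h3 : Φ (h * t) - Φ h = Φ h * (Φ t - 1) := by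
            rw [map_mul, mul_sub, mul_one]
          rw [h3]
          exact Dv.mul_left (hmem _) htk
        have h3 := RT_pow hTA (hΦ2 (h * t)) (hΦ2 h) hxy
        -- p (x - y) is p ^ (k + 1) f
        have h4 : Dv p R (k + 2) ((p : ℚ_[p]) • (Φ (h * t) - Φ h) -
            ((p : ℚ_[p]) ^ (k + 1)) • (f : B)) := by
          have h5 : Dv p R (k + 1) (Φ h * (Φ t - 1 - ((p : ℚ_[p]) ^ k) • (f : B)) +
              (Φ h - 1) * (((p : ℚ_[p]) ^ k) • (f : B))) := by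
            refine (Dv.mul_left (hmem _) ht).add ?_
            have h6 : Dv p R k (((p : ℚ_[p]) ^ k) • (f : B)) := ⟨f, hfR f, rfl⟩
            exact ((hΦ2 h).mul h6).mono (by omega)
          have h7 : Φ h * (Φ t - 1 - ((p : ℚ_[p]) ^ k) • (f : B)) +
              (Φ h - 1) * (((p : ℚ_[p]) ^ k) • (f : B)) =
              Φ (h * t) - Φ h - ((p : ℚ_[p]) ^ k) • (f : B) := by
            rw [map_mul]
            generalize ((p : ℚ_[p]) ^ k) • (f : B) = u
            noncomm_ring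
          rw [h7] at h5
          have h8 := h5.smul 1
          rw [pow_one, smul_sub, smul_smul, ← pow_succ'] at h8
          exact h8
        -- Φ g is y ^ p + p ^ (k + 1) f
        have h5 : Dv p R (k + 2) (Φ g - (Φ h) ^ p - ((p : ℚ_[p]) ^ (k + 1)) • (f : B)) := by
          have h6 : Dv p R (k + 2) ((Φ h) ^ p *
              (Φ ((h ^ p)⁻¹ * g) - 1 - ((p : ℚ_[p]) ^ (k + 1)) • (f : B)) +
              ((Φ h) ^ p - 1) * (((p : ℚ_[p]) ^ (k + 1)) • (f : B))) := by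
            refine (Dv.mul_left (R.pow_mem (hmem _) _) hf).add ?_
            have h7 : Dv p R (k + 1) (((p : ℚ_[p]) ^ (k + 1)) • (f : B)) := ⟨f, hfR f, rfl⟩
            exact (((hΦ2 h).pow_sub_one p).mul h7).mono (by omega)
          have h7 : (Φ h) ^ p * (Φ ((h ^ p)⁻¹ * g) - 1 - ((p : ℚ_[p]) ^ (k + 1)) • (f : B)) +
              ((Φ h) ^ p - 1) * (((p : ℚ_[p]) ^ (k + 1)) • (f : B)) =
              (Φ h) ^ p * Φ ((h ^ p)⁻¹ * g) - (Φ h) ^ p - ((p : ℚ_[p]) ^ (k + 1)) • (f : B) := by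
            generalize ((p : ℚ_[p]) ^ (k + 1)) • (f : B) = u
            noncomm_ring
          have h8 : (Φ h) ^ p * Φ ((h ^ p)⁻¹ * g) = Φ g := by
            rw [← map_pow, ← map_mul, mul_inv_cancel_left]
          rw [h7, h8] at h6
          exact h6
        have h6 := (h3.add h4).sub h5
        have h7 : (Φ (h * t)) ^ p - (Φ h) ^ p - (p : ℚ_[p]) • (Φ (h * t) - Φ h) +
            ((p : ℚ_[p]) • (Φ (h * t) - Φ h) - ((p : ℚ_[p]) ^ (k + 1)) • (f : B)) -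
            (Φ g - (Φ h) ^ p - ((p : ℚ_[p]) ^ (k + 1)) • (f : B)) = (Φ (h * t)) ^ p - Φ g := by
          abel
        rw [h7] at h6
        exact h6
  -- exact roots
  have hB : ∀ (j : ℕ), n₀ ≤ j → ∀ g : G, Dv p R (j + 1) (Φ g - 1) →
      ∃ h : G, Dv p R j (Φ h - 1) ∧ (Φ h) ^ p = Φ g := by
    intro j hj g hg
    let K : ℕ → Set G := fun m => {h : G | Dv p R j (Φ h - 1) ∧ Dv p R (j + 2 + m) ((Φ h) ^ p - Φ g)}
    have hK : ∀ m, IsClosed (K m) := by
      intro m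
      refine IsClosed.inter ?_ ?_
      · exact (hL.isClosed_dv j).preimage (hΦ.sub continuous_const)
      · exact (hL.isClosed_dv (j + 2 + m)).preimage ((hΦ.pow p).sub continuous_const)
    obtain ⟨h, hh⟩ := IsCompact.nonempty_iInter_of_sequence_nonempty_isCompact_isClosed K
      (fun m h hh => ⟨hh.1, hh.2.mono (by omega)⟩)
      (fun m => hA j hj g hg m) (hK 0).isCompact hK
    rw [Set.mem_iInter] at hh
    refine ⟨h, (hh 0).1, ?_⟩
    rw [← sub_eq_zero]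
    exact hL.sep _ fun k => (hh k).2.mono (by omega)
  refine ⟨n₀ + 2, by omega, ?_⟩
  intro i
  induction i with
  | zero =>
    intro g hg
    exact ⟨g, hg, by rw [pow_zero, pow_one]⟩
  | succ i ih =>
    intro g hg
    obtain ⟨g₁, h2, h3⟩ := hB (n₀ + 2 + i) (by omega) g hg
    obtain ⟨h, h4, h5⟩ := ih g₁ h2
    refine ⟨h, h4, ?_⟩
    rw [pow_succ, pow_mul, h5, h3]

end Pool.Agent.FLD
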